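import Pool.Agent.Q182.SP.Orders

/-!
# Criteria for `μ = 0` by the growth of the orders of the class groups in one `p`-extension

(Theorem of helper50; one of the two parts of the former joined hand-in OrdersAndRanks; the other one is
OrdersGrowWithRanks.)
-/

set_option autoImplicit false
set_option maxHeartbeats 4000000
set_option synthInstance.maxHeartbeats 400000

namespace Pool.Agent.Results.MP_d0239a_nt.GrowthCriteria

open Pool.Agent.Q173.MU Pool.Agent.Q50.MU Pool.Agent.Q182.SP.Orders

/-- Let `p` be a prime. For a number field `K` let `Cl'(K)` be the class group modulo the classes of the primes above `p`,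
`v(K)` the exponent of `p` in its order and `rank(K)` its `p`-rank. Let `F` be a number field (totally imaginary if
`p = 2`) with `r` archimedean places, `F_m` the layers of its cyclotomic `ℤ_p`-extension `F_∞`. Assume the known
properties of the Iwasawa modules. Let `L / F` be any Galois `p`-extension with `L ∩ F_∞ = F` whose group has a quotient
`(ℤ/p)^d`.

(1) Either `rank(F_m)` is bounded (Iwasawa's conjecture for `F`) or `v(L F_m) ≥ v(F_m) + (d - r) [F_m : F] - O(m)`.

(2) For `0 < c < d - r` the conjecture for `F` holds if and only if `v(L F_m) ≤ v(F_m) + c [F_m : F]` for infinitely many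
`m`.

(3) The conjecture holds for `p` and all number fields if and only if for every number field `F` (totally imaginary if
`p = 2`) there are `d`, such an `L` and `c < d - r` such that `v(L F_m) ≤ v(F_m) + c [F_m : F]` for infinitely many `m`. -/
theorem result (p : ℕ) [Fact p.Prime] (D : IwData) (hD : Known D p) :
    (∀ (d : ℕ) (F L : IntermediateField ℚ ℂ), Adm p F → IsPExt p d F L →
      (MuZero p F ∨ GrowsBy p (vR p) F L (d - places F))) ∧
    (∀ (d : ℕ) (F L : IntermediateField ℚ ℂ) (c : ℝ), Adm p F → IsPExt p d F L → 0 < c → c < d - places F →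
      (MuZero p F ↔ SmallGrowth p (vR p) F L c)) ∧
    ((∀ F : IntermediateField ℚ ℂ, FiniteDimensional ℚ F → MuZero p F) ↔
      ∀ F : IntermediateField ℚ ℂ, FiniteDimensional ℚ F → Adm p F → ∃ (d : ℕ) (L : IntermediateField ℚ ℂ) (c : ℝ),
        IsPExt p d F L ∧ c < d - places F ∧ SmallGrowth p (vR p) F L c) :=
  ⟨fun d F L hA hL => dichotomy hD hA hL, fun d F L c hA hL hc hc' => iff_growth hD hA hL hc hc', all_iff hD⟩

end Pool.Agent.Results.MP_d0239a_nt.GrowthCriteria
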