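import Pool.Agent.Q182.SP.Orders

/-!
# The orders of the class groups grow with the ranks in `p`-extensions

(Theorem of helper50; one of the two parts of the former joined hand-in OrdersAndRanks; the other one is GrowthCriteria.)
-/

set_option autoImplicit false
set_option maxHeartbeats 4000000
set_option synthInstance.maxHeartbeats 400000

namespace Pool.Agent.Results.MP_d0239a_nt.OrdersGrowWithRanks

open Pool.Agent.Q173.MU Pool.Agent.Q50.MU Pool.Agent.Q182.SP.Orders

/-- Let `p` be a prime. For a number field `K` let `Cl'(K)` be the class group modulo the classes of the primes above `p`,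
`v(K)` the exponent of `p` in its order and `rank(K)` its `p`-rank. Let `F` be a number field (totally imaginary if
`p = 2`) with `r` archimedean places, `F_m` the layers of its cyclotomic `ℤ_p`-extension `F_∞`, `μ(F)` the `μ`-invariant
and `m(F)` the number of the summands `Λ / (p ^ (m_i))`. Assume the known properties of the Iwasawa modules. Let `L / F` be
any Galois `p`-extension with `L ∩ F_∞ = F` whose group has a quotient `(ℤ/p)^d`. Then
`μ(L) ≥ μ(F) + d m(F) - r`, and `v(L F_m) ≥ v(F_m) + d rank(F_m) - r [F_m : F] - O(m)`. -/
theorem result (p : ℕ) [Fact p.Prime] (D : IwData) (hD : Known D p) (d : ℕ) (F L : IntermediateField ℚ ℂ)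
    (hA : Adm p F) (hL : IsPExt p d F L) :
    D.mu F + d * D.m F ≤ D.mu L + places F ∧ OrderRank p F L d (places F) :=
  ⟨mu_add_le hD hA hL, orderRank hD hA hL⟩

end Pool.Agent.Results.MP_d0239a_nt.OrdersGrowWithRanks
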