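import Pool.Agent.Q173.MU.Data

/-!
# The `p`-ranks of the class groups of the layers: bounded, or of the order of the degree

For every prime `p` and every number field `F` (totally imaginary if `p = 2`) the following dichotomy holds: either the
`p`-ranks of the class groups modulo the primes above `p` of the layers `F_m` of the cyclotomic `ℤ_p`-extension are bounded
(this is the conjecture of Iwasawa, `μ = 0`), or for ALL abelian `p`-extensions `L` of `F` of exponent `p ^ e` these ranks
for `L_m` are between `[L_m : F] / p ^ (e (r + 1))` and `g [L_m : F]`, up to a bounded error; here `r` is the number of the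
archimedean places of `F` and `g` depends only on `F`.
-/

set_option autoImplicit false

namespace Pool.Agent.Results.MP_d0239a_nt.RanksOfLayers

open Pool.Agent.Q173.MU NumberField

/-- The subgroup of the class group of `K` generated by the classes of the primes above `p`. -/
noncomputable def primesAbove (p : ℕ) (K : IntermediateField ℚ ℂ) [NumberField K] :
    Subgroup (ClassGroup (𝓞 K)) :=
  Subgroup.closure {c | ∃ I : nonZeroDivisors (Ideal (𝓞 K)), (I : Ideal (𝓞 K)).IsPrime ∧
    ((p : 𝓞 K)) ∈ (I : Ideal (𝓞 K)) ∧ ClassGroup.mk0 I = c}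

/-- The `p`-rank of the class group of `K` modulo the classes of the primes above `p`. -/
noncomputable def rank (p : ℕ) (K : IntermediateField ℚ ℂ) [NumberField K] : ℕ :=
  Nat.log p (Nat.card {g : ClassGroup (𝓞 K) ⧸ primesAbove p K // g ^ p = 1})

/-- The conjecture for the field `F`: the `p`-ranks of the layers of `F` are bounded (this is equivalent to `μ = 0`, and it
is the form of the frozen statement). -/
def MuZero (p : ℕ) (F : IntermediateField ℚ ℂ) : Prop :=
  ∃ C : ℝ, ∀ m K, IsLayer p m F K → ∀ [NumberField K], (rank p K : ℝ) ≤ C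

/-- The structure theorem: the `p`-rank of the layer `F_m` is `g [F_m : F] + O(1)`, where `g` is the number of the
summands `Λ / (p ^ (m_i))` of the Iwasawa module. -/
def Formula (D : IwData) (p : ℕ) : Prop := ∀ F : IntermediateField ℚ ℂ, FiniteDimensional ℚ F →
  ∃ C : ℝ, ∀ m K, IsLayer p m F K → ∀ [NumberField K], |(rank p K : ℝ) - D.m F * deg F K| ≤ C

/-- `p` is odd or `F` is totally imaginary. -/
def Adm (p : ℕ) (F : IntermediateField ℚ ℂ) : Prop := p ≠ 2 ∨ IsTotImag F

/-- Every number field `F` has a finite extension `F'` which is admissible (take `F' = F(√-1)` if `p = 2`); the map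
`X F' → X F` is surjective. -/
def Descent (D : IwData) (p : ℕ) : Prop := ∀ F : IntermediateField ℚ ℂ, FiniteDimensional ℚ F →
  ∃ F' : IntermediateField ℚ ℂ, F ≤ F' ∧ FiniteDimensional ℚ F' ∧ Adm p F' ∧ D.m F ≤ D.m F'

/-- The known properties of the modules `X F = X(F_∞) ⊗_Λ Λ_(p)`, where `X(F_∞)` is the Galois group of the maximal abelian
unramified pro-`p` extension of `F_∞` in which the primes above `p` split completely. -/
structure Known (D : IwData) (p : ℕ) : Prop where
  loc : D.IsLoc p
  formula : Formula D p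
  pres : D.HasPres p (Adm p)
  descent : Descent D p
  layers : HasLayers p

/-- For infinitely many layers of `L` the `p`-rank is at most `c [L_m : F]`. -/
def SmallOften (p : ℕ) (F L : IntermediateField ℚ ℂ) (c : ℝ) : Prop :=
  ∀ M : ℕ, ∃ m ≥ M, ∃ K, IsLayer p m L K ∧ ∀ [NumberField K], (rank p K : ℝ) ≤ c * deg F K

/-- For all layers of `L` the `p`-rank is between `c [L_m : F]` and `g [L_m : F]`, up to a bounded error. -/
def Between (p : ℕ) (F L : IntermediateField ℚ ℂ) (c g : ℝ) : Prop :=
  ∃ C : ℝ, ∀ m K, IsLayer p m L K → ∀ [NumberField K],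
    c * deg F K - C ≤ (rank p K : ℝ) ∧ (rank p K : ℝ) ≤ g * deg F K + C

section

variable {p : ℕ} [hp : Fact p.Prime] {D : IwData}

lemma deg_layer {F L K : IntermediateField ℚ ℂ} {m : ℕ} (h : F ≤ L) (hK : IsLayer p m L K) :
    (deg F K : ℝ) = deg F L * deg L K := by
  rw [← deg_mul h (layer_le hK)]
  push_cast
  ring

omit hp in
lemma numberField_of {K : IntermediateField ℚ ℂ} (h : FiniteDimensional ℚ K) : NumberField K := by
  have := h
  exact { to_charZero := inferInstance, to_finiteDimensional := h }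

lemma numberField_layer {F K : IntermediateField ℚ ℂ} {m : ℕ} (hF : FiniteDimensional ℚ F)
    (hK : IsLayer p m F K) : NumberField K := numberField_of (layer_fin hp.out hF hK)

/-- the degrees of the layers tend to infinity -/
lemma exists_small {F L : IntermediateField ℚ ℂ} (hL : FiniteDimensional ℚ L) (hFL : F ≤ L) (hpos : 0 < deg F L)
    (C ε : ℝ) (hε : 0 < ε) : ∃ M : ℕ, ∀ m ≥ M, ∀ K, IsLayer p m L K → C < ε * deg F K := by
  have hp1 : (1 : ℝ) < p := by exact_mod_cast hp.out.one_lt
  set d : ℝ := (Module.finrank ℚ L : ℝ) with hd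
  have hd0 : 0 < d := by
    rw [hd]
    exact_mod_cast Module.finrank_pos
  obtain ⟨M, hM⟩ := pow_unbounded_of_one_lt (C * d / ε) hp1
  refine ⟨M, fun m hm K hK => ?_⟩
  have h7 : C * d / ε < (p : ℝ) ^ m := hM.trans_le (pow_le_pow_right₀ hp1.le hm)
  have h8 : (p : ℝ) ^ m ≤ deg L K * d := by
    have := layer_deg hp.out hL hK
    rw [hd]
    exact_mod_cast this
  have h9 : (deg L K : ℝ) ≤ deg F K := by
    rw [deg_layer hFL hK]
    have : (1 : ℝ) ≤ deg F L := by exact_mod_cast hpos
    nlinarith [(Nat.cast_nonneg (deg L K) : (0 : ℝ) ≤ _)]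
  have h10 : C * d / ε < deg F K * d :=
    h7.trans_le (h8.trans (mul_le_mul_of_nonneg_right h9 hd0.le))
  rw [div_lt_iff₀ hε] at h10
  have h11 : C * d < (ε * deg F K) * d := by linarith
  exact lt_of_mul_lt_mul_right h11 hd0.le

lemma deg_pos {e : ℕ} {F L : IntermediateField ℚ ℂ} (hL : IsAb p e F L) : 0 < deg F L := by
  obtain ⟨h, hE, _, _⟩ := hL
  have := finite_gal hE
  rw [← card_gal hE]
  exact Nat.card_pos

lemma muZero_iff (hD : Known D p) {F : IntermediateField ℚ ℂ} (hF : FiniteDimensional ℚ F) :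
    MuZero p F ↔ D.m F = 0 := by
  obtain ⟨C, hC⟩ := hD.formula F hF
  have hdeg : 0 < deg F F := deg_pos (isAb_self p 0 hF)
  constructor
  · rintro ⟨B, hB⟩
    by_contra hne
    have hpos : (1 : ℝ) ≤ D.m F := by
      have : 1 ≤ D.m F := Nat.one_le_iff_ne_zero.2 hne
      exact_mod_cast this
    obtain ⟨M, hM⟩ := exists_small (p := p) hF le_rfl hdeg (C + B) 1 one_pos
    obtain ⟨K, hK⟩ := hD.layers.exists M F
    have hNF := numberField_layer hF hK
    have h1 := hM M le_rfl K hK
    have h2 := (abs_le.1 (hC M K hK)).1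
    have h3 : (rank p K : ℝ) ≤ B := hB M K hK
    have h4 : (deg F K : ℝ) ≤ D.m F * deg F K := by
      nlinarith [(Nat.cast_nonneg (deg F K) : (0 : ℝ) ≤ _)]
    linarith
  · intro h0
    refine ⟨C, fun m K hK => ?_⟩
    intro _
    have h2 := (abs_le.1 (hC m K hK)).2
    rw [h0, Nat.cast_zero, zero_mul] at h2
    linarith

/-- **The dichotomy.** -/
lemma dichotomy (hD : Known D p) {F L : IntermediateField ℚ ℂ} {e : ℕ} (hA : Adm p F) (hL : IsAb p e F L)
    (h0 : ¬ MuZero p F) : Between p F L (1 / p ^ (e * (places F + 1))) (D.m F) := by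
  have hF := fin_left_of_isAb hL
  have hLf := fin_of_isAb hL
  rw [muZero_iff hD hF] at h0
  have h1 := D.growth hD.loc hD.pres hA hL (Nat.pos_of_ne_zero h0)
  have h2 := D.upper hD.pres hA hL
  obtain ⟨C, hC⟩ := hD.formula L hLf
  refine ⟨C, fun m K hK => ?_⟩
  intro _
  have h3 := abs_le.1 (hC m K hK)
  have hq : (0 : ℝ) < (p : ℝ) ^ (e * (places F + 1)) := pow_pos (by exact_mod_cast hp.out.pos) _
  have h4 : (deg F L : ℝ) ≤ (p : ℝ) ^ (e * (places F + 1)) * D.m L := by exact_mod_cast h1
  have h4' : (D.m L : ℝ) ≤ deg F L * D.m F := by exact_mod_cast h2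
  obtain ⟨hle, _⟩ := hL
  rw [deg_layer hle hK, div_mul_eq_mul_div, one_mul]
  have hnn : (0 : ℝ) ≤ deg L K := Nat.cast_nonneg _
  have h5 : (deg F L * deg L K : ℝ) / (p : ℝ) ^ (e * (places F + 1)) ≤ D.m L * deg L K := by
    rw [div_le_iff₀ hq]
    nlinarith
  have h6 : (D.m L : ℝ) * deg L K ≤ D.m F * (deg F L * deg L K) := by nlinarith
  exact ⟨by linarith [h3.1], by linarith [h3.2]⟩

lemma not_small (hD : Known D p) {F L : IntermediateField ℚ ℂ} {e : ℕ} (hA : Adm p F) (hL : IsAb p e F L) {c : ℝ}
    (hc : c < 1 / p ^ (e * (places F + 1))) (h0 : ¬ MuZero p F) : ¬ SmallOften p F L c := by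
  intro hs
  obtain ⟨C, hC⟩ := dichotomy hD hA hL h0
  have hdp := deg_pos hL
  have hLf := fin_of_isAb hL
  obtain ⟨hle, _⟩ := hL
  obtain ⟨M, hM⟩ := exists_small (p := p) hLf hle hdp C
    (1 / p ^ (e * (places F + 1)) - c) (by linarith)
  obtain ⟨m, hm, K, hK, hsm⟩ := hs M
  have hNF := numberField_layer hLf hK
  have h1 := hM m hm K hK
  have h2 := (hC m K hK).1
  have h2' : (rank p K : ℝ) ≤ c * deg F K := hsm
  have h3 : (1 / (p : ℝ) ^ (e * (places F + 1)) - c) * deg F K =
    1 / (p : ℝ) ^ (e * (places F + 1)) * deg F K - c * deg F K := by ring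
  linarith

lemma small_of_muZero (hl : HasLayers p) {F : IntermediateField ℚ ℂ} (hF : FiniteDimensional ℚ F)
    (h0 : MuZero p F) {c : ℝ} (hc : 0 < c) : SmallOften p F F c := by
  obtain ⟨C, hC⟩ := h0
  obtain ⟨M, hM⟩ := exists_small (p := p) hF le_rfl (deg_pos (isAb_self p 0 hF)) C c hc
  intro N
  obtain ⟨K, hK⟩ := hl.exists (max M N) F
  refine ⟨max M N, le_max_right _ _, K, hK, ?_⟩
  intro _
  exact (hC _ K hK).trans (hM (max M N) (le_max_left _ _) K hK).le

end

/-- Let `p` be a prime. `F_m` is the `m`-th layer of the cyclotomic `ℤ_p`-extension of the number field `F`, `r` the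
number of its archimedean places and `rank` the `p`-rank of the class group modulo the primes above `p`. Assume the
known properties of the Iwasawa modules. Then:

(1) For every number field `F` (totally imaginary if `p = 2`) either `rank F_m = O(1)` (the conjecture for `F`), or there
is `g` such that for ALL abelian `p`-extensions `L / F` with group of exponent `p ^ e` and `L ∩ F_∞ = F` one has
`[L_m : F] / p ^ (e (r + 1)) - O(1) ≤ rank L_m ≤ g [L_m : F] + O(1)`.

(2) For such `F` the conjecture holds if and only if there are `e`, an abelian `p`-extension `L` of exponent `p ^ e` as in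
(1) and `c < 1 / p ^ (e (r + 1))` such that `rank L_m ≤ c [L_m : F]` for infinitely many `m`.

(3) The conjecture holds for all number fields if and only if for all number fields `F` and all `ε > 0` there is an
elementary abelian `p`-extension `L` of `F` such that `rank L_m ≤ ε [L_m : F]` for infinitely many `m`. -/
theorem result (p : ℕ) [Fact p.Prime] (D : IwData) (hD : Known D p) :
    (∀ F : IntermediateField ℚ ℂ, FiniteDimensional ℚ F → Adm p F → (MuZero p F ∨
      ∃ g : ℝ, ∀ e L, IsAb p e F L → Between p F L (1 / p ^ (e * (places F + 1))) g)) ∧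
    (∀ F : IntermediateField ℚ ℂ, FiniteDimensional ℚ F → Adm p F → (MuZero p F ↔
      ∃ (e : ℕ) (L : IntermediateField ℚ ℂ) (c : ℝ), IsAb p e F L ∧ c < 1 / p ^ (e * (places F + 1)) ∧
        SmallOften p F L c)) ∧
    ((∀ F : IntermediateField ℚ ℂ, FiniteDimensional ℚ F → MuZero p F) ↔
      ∀ F : IntermediateField ℚ ℂ, FiniteDimensional ℚ F → ∀ ε : ℝ, 0 < ε → ∃ L, IsAb p 1 F L ∧
        SmallOften p F L ε) := by
  refine ⟨?_, ?_, ?_⟩
  · intro F hF hA
    by_cases h : MuZero p F
    · exact Or.inl h
    · exact Or.inr ⟨D.m F, fun e L hL => dichotomy hD hA hL h⟩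
  · intro F hF hA
    constructor
    · intro h
      refine ⟨0, F, 1 / 2, isAb_self p 0 hF, ?_, small_of_muZero hD.layers hF h (by norm_num)⟩
      rw [zero_mul, pow_zero]
      norm_num
    · rintro ⟨e, L, c, hL, hc, hs⟩
      by_contra h
      exact not_small hD hA hL hc h hs
  · constructor
    · intro h F hF ε hε
      exact ⟨F, isAb_self p 1 hF, small_of_muZero hD.layers hF (h F hF) hε⟩
    · intro h F hF
      by_contra h0
      obtain ⟨F', _, hF', hA, hle⟩ := hD.descent F hF
      have h0' : ¬ MuZero p F' := by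
        rw [muZero_iff hD hF'] 
        rw [muZero_iff hD hF] at h0
        omega
      have hq : (0 : ℝ) < (p : ℝ) ^ (1 * (places F' + 1)) :=
        pow_pos (by exact_mod_cast (Fact.out : p.Prime).pos) _
      obtain ⟨L, hL, hs⟩ := h F' hF' (1 / p ^ (1 * (places F' + 1)) / 2) (by positivity)
      refine not_small hD hA hL ?_ h0' hs
      have : (0 : ℝ) < 1 / (p : ℝ) ^ (1 * (places F' + 1)) := by positivity
      linarith

end Pool.Agent.Results.MP_d0239a_nt.RanksOfLayers
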